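import Pool.Agent.Helper89.OC.St1

/-!
# Project OC, module LKD: the sum over the objects with nontrivial p-part of the twist
-/

set_option autoImplicit false

namespace Pool.Agent.Helper48.OC

open Matrix ComplexConjugate Pool.Agent.Helper94.YF Pool.Agent.Helper94.YG Pool.Agent.Helper89.OS
  Pool.Agent.Helper89.OC

section mats
variable {L : ℕ}

theorem s2_val (b : ZMod L) : (s2 b : SL L).1 =
    !![1, -b; 0, 1] * !![1, 0; b, 1] * !![1, -b; 0, 1] := rfl

theorem s2_00 (b : ZMod L) (hb : b * b = b) : (s2 b : SL L) 0 0 = 1 - b := by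
  show (s2 b : SL L).1 0 0 = 1 - b
  rw [s2_val]
  simp [Matrix.mul_apply, Fin.sum_univ_two]
  linear_combination -hb

theorem s2_10 (b : ZMod L) : (s2 b : SL L) 1 0 = b := by
  show (s2 b : SL L).1 1 0 = b
  rw [s2_val]
  simp [Matrix.mul_apply, Fin.sum_univ_two]

theorem Us2_00 (x b : ZMod L) (hb : b * b = b) : (U x * s2 b : SL L) 0 0 = 1 - b + x * b := by
  show ((U x : SL L).1 * (s2 b : SL L).1) 0 0 = _
  have h1 : (s2 b : SL L).1 0 0 = 1 - b := s2_00 b hb
  have h2 : (s2 b : SL L).1 1 0 = b := s2_10 b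
  have h3 : (U x : SL L).1 = !![1, x; 0, 1] := rfl
  rw [Matrix.mul_apply, Fin.sum_univ_two, h1, h2, h3]
  simp

theorem Us2_10 (x b : ZMod L) : (U x * s2 b : SL L) 1 0 = b := by
  show ((U x : SL L).1 * (s2 b : SL L).1) 1 0 = _
  have h2 : (s2 b : SL L).1 1 0 = b := s2_10 b
  have h3 : (U x : SL L).1 = !![1, x; 0, 1] := rfl
  rw [Matrix.mul_apply, Fin.sum_univ_two, h2, h3]
  simp

theorem SU (x : ZMod L) : (Sm : SL L) * U x = Lo (-x) * Sm := by
  apply Subtype.ext
  show !![(0 : ZMod L), -1; 1, 0] * !![1, x; 0, 1] = !![1, 0; -x, 1] * !![0, -1; 1, 0]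
  ext i k
  fin_cases i <;> fin_cases k <;>
    simp [Matrix.mul_apply, Fin.sum_univ_two]

end mats

section
variable {I : Type} [Fintype I] [DecidableEq I] (Z : CentreRep I)

theorem unit_row' (k V : I) : ∑ t, Z.rho Sm k t * conj (Z.rho Sm V t) = if k = V then 1 else 0 := by
  have h := mul_eq_one_comm.mp (Z.unitary Sm)
  have h2 := congrFun (congrFun h k) V
  rw [Matrix.mul_apply, Matrix.one_apply] at h2
  simpa [Matrix.conjTranspose_apply] using h2

/-- the entry of `rho (Lo (-x))` -/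
theorem lo_entry (hU : ∀ z, Z.rho (U z) = Matrix.diagonal (Z.tw z)) (x : ZMod Z.L) (i k : I) :
    ∑ j, Z.rho Sm i j * Z.tw x j * conj (Z.rho Sm k j) = Z.rho (Lo (-x)) i k := by
  have h1 : Z.rho Sm * Z.rho (U x) * (Z.rho Sm)ᴴ = Z.rho (Lo (-x)) := by
    rw [← map_mul, SU, map_mul, mul_assoc, mul_eq_one_comm.mp (Z.unitary Sm), mul_one]
  rw [← h1, hU, Matrix.mul_apply]
  refine Finset.sum_congr rfl fun j _ => ?_
  rw [Matrix.mul_diagonal, Matrix.conjTranspose_apply]
  rfl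

theorem sum_ne {P : ℕ} [Fact P.Prime] (T : ZMod P → ℂ) :
    ∑ x ∈ Finset.univ.erase (0 : ZMod P), T (-x⁻¹) = ∑ x ∈ Finset.univ.erase (0 : ZMod P), T x := by
  refine Finset.sum_nbij' (fun x => -x⁻¹) (fun x => -x⁻¹) ?_ ?_ ?_ ?_ ?_
  · intro x hx
    have hx' : x ≠ 0 := (Finset.mem_erase.mp hx).1
    exact Finset.mem_erase.mpr ⟨neg_ne_zero.mpr (inv_ne_zero hx'), Finset.mem_univ _⟩
  · intro x hx
    have hx' : x ≠ 0 := (Finset.mem_erase.mp hx).1
    exact Finset.mem_erase.mpr ⟨neg_ne_zero.mpr (inv_ne_zero hx'), Finset.mem_univ _⟩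
  · intro x _
    simp [inv_neg]
  · intro x _
    simp [inv_neg]
  · intro x _
    rfl

theorem geo {P : ℕ} [NeZero P] (T : ZMod P → ℂ) (hadd : ∀ x y, T (x + y) = T x * T y)
    (hone : T 1 = 1 → ∀ x, T x = 1) : ∑ x, T x = if T 1 = 1 then (P : ℂ) else 0 := by
  split_ifs with h
  · rw [Finset.sum_congr rfl fun x _ => hone h x]
    simp [ZMod.card]
  · have h1 : ∑ x, T (x + 1) = ∑ x, T x :=
      Fintype.sum_equiv (Equiv.addRight (1 : ZMod P)) _ _ (fun x => rfl)
    simp only [hadd, ← Finset.sum_mul] at h1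
    have h2 : (∑ x, T x) * (T 1 - 1) = 0 := by linear_combination h1
    rcases mul_eq_zero.mp h2 with h3 | h3
    · exact h3
    · exact absurd (by linear_combination h3) h

/-- the main computation -/
theorem main (hF : StFUS) (hD : StDUA) {P : ℕ} (hP : P.Prime) (b : ZMod Z.L) (hb : b * b = b)
    (j : ZMod P → ZMod Z.L) (hj : JH Z.L P b j) (i : I) (hi : i ≠ Z.o) :
    (P : ℂ) * ∑ k, (if Z.tw b k = 1 then 0 else Z.rho Sm Z.o k * conj (Z.rho Sm i k)) =
      -(Z.rho (s2 b) i Z.o * (if Z.tw b i = 1 then (P : ℂ) - 1 else -1)) := by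
  obtain ⟨hU, -, hadd, hzero, -, htwo, -, -, hsym, -, hcol⟩ := hF hD I Z
  have : Fact P.Prime := ⟨hP⟩
  have hbj : ∀ x, b * j x = j x := by
    intro x
    have := hj.mul 1 x
    rw [one_mul, hj.one] at this
    exact this.symm
  have hneg : ∀ x, j (-x) = -j x := by
    intro x
    have h := hj.add x (-x)
    rw [add_neg_cancel, hj.zero] at h
    linear_combination -h
  -- powers
  have hnat : ∀ (k : ℕ) (l : I), Z.tw ((k : ZMod Z.L) * b) l = Z.tw b l ^ k := by
    intro k l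
    induction k with
    | zero => simp [hzero]
    | succ k ih =>
      rw [Nat.cast_succ, add_mul, one_mul, hadd, ih, pow_succ]
  have hTadd : ∀ (l : I) (x y : ZMod P), Z.tw (j (x + y)) l = Z.tw (j x) l * Z.tw (j y) l := by
    intro l x y
    rw [hj.add, hadd]
  have hT0 : ∀ l, Z.tw (j 0) l = 1 := by
    intro l
    rw [hj.zero, hzero]
  have hgeo : ∀ l, ∑ x, Z.tw (j x) l = if Z.tw b l = 1 then (P : ℂ) else 0 := by
    intro l
    have h := geo (fun x => Z.tw (j x) l) (hTadd l) (by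
      intro h1 x
      simp only [hj.one] at h1
      show Z.tw (j x) l = 1
      rw [hj.val, hnat, h1, one_pow])
    simpa only [hj.one] using h
  -- nonzero w
  have hw : ∀ w : ZMod P, w ≠ 0 → ∑ k, Z.rho Sm Z.o k * Z.tw (j w) k * conj (Z.rho Sm i k) =
      Z.tw (j (-w⁻¹)) i * Z.rho (s2 b) i Z.o := by
    intro w hw0
    rw [lo_entry Z hU, hsym]
    have hjj : j w * j w⁻¹ = b := by
      rw [← hj.mul, mul_inv_cancel₀ hw0, hj.one]
    have hc : ((1 - b) - j w) * ((1 - b) - j w⁻¹) = 1 := by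
      linear_combination hjj + hb + hbj w + hbj w⁻¹
    have h1 := hcol (U (j (-w⁻¹)) * s2 b) (Lo (-(j w)))
      ⟨(1 - b) - j w, (1 - b) - j w⁻¹, hc, by rw [mul_comm]; exact hc⟩
      (by
        rw [Us2_00 _ _ hb]
        show (1 : ZMod Z.L) = ((1 - b) - j w) * (1 - b + j (-w⁻¹) * b)
        rw [hneg]
        linear_combination -hc + ((1 - b) - j w) * hbj w⁻¹)
      (by
        rw [Us2_10]
        show -(j w) = ((1 - b) - j w) * b
        linear_combination hb + hbj w) i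
    rw [h1, map_mul, hU, Matrix.diagonal_mul]
  have h0 : ∑ k, Z.rho Sm Z.o k * conj (Z.rho Sm i k) = 0 := by
    rw [unit_row', if_neg (Ne.symm hi)]
  have hsum : ∑ w : ZMod P, ∑ k, Z.rho Sm Z.o k * Z.tw (j w) k * conj (Z.rho Sm i k) =
      ((if Z.tw b i = 1 then (P : ℂ) else 0) - 1) * Z.rho (s2 b) i Z.o := by
    rw [← Finset.add_sum_erase Finset.univ _ (Finset.mem_univ (0 : ZMod P))]
    have e0 : ∑ k, Z.rho Sm Z.o k * Z.tw (j 0) k * conj (Z.rho Sm i k) = 0 := by
      simp only [hT0, mul_one]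
      exact h0
    rw [e0, zero_add, Finset.sum_congr rfl fun w hw' => hw w (Finset.mem_erase.mp hw').1,
      ← Finset.sum_mul, sum_ne (fun x => Z.tw (j x) i)]
    congr 1
    have h := Finset.add_sum_erase Finset.univ (fun x => Z.tw (j x) i) (Finset.mem_univ (0 : ZMod P))
    simp only [hT0, hgeo] at h
    linear_combination h
  have hswap : ∑ w : ZMod P, ∑ k, Z.rho Sm Z.o k * Z.tw (j w) k * conj (Z.rho Sm i k) =
      (P : ℂ) * ∑ k, (if Z.tw b k = 1 then Z.rho Sm Z.o k * conj (Z.rho Sm i k) else 0) := by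
    rw [Finset.sum_comm, Finset.mul_sum]
    refine Finset.sum_congr rfl fun k _ => ?_
    have : ∑ w : ZMod P, Z.rho Sm Z.o k * Z.tw (j w) k * conj (Z.rho Sm i k) =
        Z.rho Sm Z.o k * conj (Z.rho Sm i k) * ∑ w : ZMod P, Z.tw (j w) k := by
      rw [Finset.mul_sum]
      exact Finset.sum_congr rfl fun w _ => by ring
    rw [this, hgeo]
    split_ifs
    · ring
    · ring
  have hsplit : ∑ k, (if Z.tw b k = 1 then 0 else Z.rho Sm Z.o k * conj (Z.rho Sm i k)) =
      -∑ k, (if Z.tw b k = 1 then Z.rho Sm Z.o k * conj (Z.rho Sm i k) else 0) := by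
    rw [eq_neg_iff_add_eq_zero, ← Finset.sum_add_distrib]
    refine (Finset.sum_congr rfl fun k _ => ?_).trans h0
    split_ifs <;> ring
  rw [hsplit, mul_neg, ← hswap, hsum]
  split_ifs <;> ring

end

theorem hLKD : StLKD := by
  intro _ I _ _ Z p b X lk i hi
  obtain ⟨j, -, hj, -, -⟩ := Pool.Agent.Helper24.OS.hJTU Z.L p 1 b X.prime lk.idp
  have hP : (p ^ 1).Prime := by
    rw [pow_one]
    exact X.prime
  have hi' : i ≠ Z.o := by
    rw [← lk.o]
    exact hi
  have hm := main Z.toCentreRep Pool.Agent.Helper36.YF.hFUS Pool.Agent.Helper88.YF.hDUA hP b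
    lk.idp.idem j hj i hi'
  rw [pow_one] at hm
  have hp0 : (p : ℂ) ≠ 0 := by exact_mod_cast X.prime.ne_zero
  have hn0 : (Z.n : ℂ) ≠ 0 := by exact_mod_cast Z.n_pos.ne'
  have hy : (X.y i : ℂ) = (p : ℂ) * Z.rho (s2 b) i Z.o := by
    have h := X.s_o i
    rw [lk.s, lk.o] at h
    exact h.symm
  have hu : Z.rho (s2 b) i Z.o = (X.y i : ℂ) / p := by
    rw [hy]
    field_simp
  have hso : ∀ k, Z.rho Sm Z.o k = (Z.d k : ℂ) / Z.n := Z.s_o
  -- conjugate
  have hc := congrArg conj hm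
  rw [hu] at hc
  simp only [map_mul, map_neg, map_sum, map_div₀, Complex.conj_natCast, map_intCast,
    apply_ite (conj : ℂ → ℂ), map_zero, map_sub, map_one, Complex.conj_conj, hso] at hc
  rw [lk.t, lk.d, lk.chi]
  have hn : (Z.n : ℂ) = (p : ℂ) * X.m := by
    rw [lk.n_eq]
    push_cast
    ring
  have hsum : (∑ k, if Z.tw b k = 1 then 0 else (Z.d k : ℂ) ^ 2 * Cchi Z k i) =
      (Z.n : ℂ) ^ 2 * ∑ k, (if Z.tw b k = 1 then 0 else (Z.d k : ℂ) / Z.n * Z.rho Sm i k) := by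
    rw [Finset.mul_sum]
    refine Finset.sum_congr rfl fun k _ => ?_
    split_ifs
    · simp
    · have hd : (Z.d k : ℂ) ≠ 0 := by exact_mod_cast (Z.d_pos k).ne'
      rw [Cchi, hso]
      field_simp
  rw [hsum]
  have key : ∑ k, (if Z.tw b k = 1 then 0 else (Z.d k : ℂ) / Z.n * Z.rho Sm i k) =
      -((X.y i : ℂ) / p * (if Z.tw b i = 1 then (p : ℂ) - 1 else -1)) / p := by
    rw [eq_div_iff hp0, mul_comm]
    exact hc
  rw [key, hn]
  field_simp

end Pool.Agent.Helper48.OC
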